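import Pool.Agent.Helper30_FC.XDef
import Pool.Agent.Helper30_FC.Strip
import Pool.Agent.Helper30_FC.T6

/-!
MP_f5cbfa_nt (helper96), row XSI: the coordinates in which a form is the Euclidean norm.
-/

set_option autoImplicit false

open MeasureTheory Set Filter

namespace Pool.Agent.Helper96_X

open Pool.Agent.BTL Pool.Agent.F5S Pool.Agent.F5H
open Pool.Agent.Helper30_FC

/-- bounds for the entries -/
structure Ent (M a b c p q : ℝ) : Prop where
  hM : 1 ≤ M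
  ha : p ^ 2 = a
  hD : q ^ 2 = a * c - b ^ 2
  hp : 1 / M ≤ p
  hp' : p ≤ M
  hq : 1 / M ≤ q
  hq' : q ≤ M
  hb : |b| ≤ M
  hc : |c| ≤ M
  ha' : |a| ≤ M

theorem ent_of {M : ℝ} (hM : 1 ≤ M) {A : ℝ × ℝ × ℝ} (hA : A ∈ KM M) :
    Ent M A.1 A.2.1 A.2.2 (Real.sqrt A.1) (Real.sqrt (disc A)) := by
  have hM0 : 0 < M := by linarith
  have hn := KM_abs_le hM hA
  simp only [Prod.norm_def, Real.norm_eq_abs, sup_le_iff] at hn
  obtain ⟨n1, n2, n3⟩ := hn
  have h10 := (hA (1, 0)).1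
  simp only [qf, nr] at h10
  norm_num at h10
  have ha : 1 / M ≤ A.1 := by rw [one_div]; exact h10
  have ha0 : 0 < A.1 := lt_of_lt_of_le (by positivity) ha
  obtain ⟨d1, d2⟩ := KM_disc hM hA
  have hD0 : 0 < disc A := disc_pos_of_KM hM hA
  have hMM : 1 / M ≤ 1 := by
    rw [div_le_one hM0]
    exact hM
  refine ⟨hM, Real.sq_sqrt ha0.le, Real.sq_sqrt hD0.le, ?_, ?_, ?_, ?_, n2, n3, n1⟩
  · apply Real.le_sqrt_of_sq_le
    have : (1 / M) ^ 2 ≤ 1 / M := by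
      have h0 : 0 ≤ 1 / M := by positivity
      nlinarith
    linarith
  · rw [Real.sqrt_le_left hM0.le]
    have := (le_abs_self A.1).trans n1
    nlinarith
  · apply Real.le_sqrt_of_sq_le
    rw [div_pow, one_pow]
    exact d1
  · rw [Real.sqrt_le_left hM0.le]
    exact d2

theorem Ent.p0 {M a b c p q : ℝ} (h : Ent M a b c p q) : 0 < p := by
  have := h.hM
  exact lt_of_lt_of_le (by positivity) h.hp

theorem Ent.q0 {M a b c p q : ℝ} (h : Ent M a b c p q) : 0 < q := by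
  have := h.hM
  exact lt_of_lt_of_le (by positivity) h.hq

theorem Ent.ip {M a b c p q : ℝ} (h : Ent M a b c p q) : 1 / p ≤ M := by
  have h0 := h.hM
  have hM0 : 0 < M := by linarith
  rw [div_le_iff₀ h.p0]
  have := mul_le_mul_of_nonneg_left h.hp hM0.le
  rwa [mul_one_div, div_self hM0.ne'] at this

theorem Ent.iq {M a b c p q : ℝ} (h : Ent M a b c p q) : 1 / q ≤ M := by
  have h0 := h.hM
  have hM0 : 0 < M := by linarith
  rw [div_le_iff₀ h.q0]
  have := mul_le_mul_of_nonneg_left h.hq hM0.le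
  rwa [mul_one_div, div_self hM0.ne'] at this

/-- the coordinates with `p`, `q` -/
theorem si_eq {M : ℝ} (hM : 1 ≤ M) {A : ℝ × ℝ × ℝ} (hA : A ∈ KM M) (w : ℝ × ℝ) :
    si A w = (1 / Real.sqrt A.1 * w.1 - A.2.1 * (1 / Real.sqrt A.1) * (1 / Real.sqrt (disc A)) * w.2,
      Real.sqrt A.1 * (1 / Real.sqrt (disc A)) * w.2) := by
  have he := ent_of hM hA
  have hp := he.p0
  have hq := he.q0
  have ha0 : 0 ≤ A.1 := by
    rw [← he.ha]
    positivity
  have h1 : Real.sqrt (A.1 * disc A) = Real.sqrt A.1 * Real.sqrt (disc A) := Real.sqrt_mul ha0 _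
  have h2 : Real.sqrt (A.1 / disc A) = Real.sqrt A.1 / Real.sqrt (disc A) := Real.sqrt_div ha0 _
  unfold si
  rw [h1, h2]
  refine Prod.ext ?_ ?_
  · change w.1 / Real.sqrt A.1 - A.2.1 * w.2 / (Real.sqrt A.1 * Real.sqrt (disc A)) =
      1 / Real.sqrt A.1 * w.1 - A.2.1 * (1 / Real.sqrt A.1) * (1 / Real.sqrt (disc A)) * w.2
    field_simp
  · change w.2 * (Real.sqrt A.1 / Real.sqrt (disc A)) = Real.sqrt A.1 * (1 / Real.sqrt (disc A)) * w.2
    field_simp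

theorem qf_si_aux {a b c p q x y : ℝ} (hp0 : 0 < p) (hq0 : 0 < q) (e1 : p ^ 2 = a)
    (e2 : q ^ 2 = a * c - b ^ 2) :
    a * (1 / p * x - b * (1 / p) * (1 / q) * y) ^ 2 +
      2 * b * (1 / p * x - b * (1 / p) * (1 / q) * y) * (p * (1 / q) * y) +
      c * (p * (1 / q) * y) ^ 2 = x ^ 2 + y ^ 2 := by
  have e3 : p ^ 2 * c = q ^ 2 + b ^ 2 := by rw [e1]; linarith
  rw [← e1]
  have e4 : p ^ 2 * (1 / p * x - b * (1 / p) * (1 / q) * y) ^ 2 = (x - b * (1 / q) * y) ^ 2 := by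
    field_simp
  have e5 : 2 * b * (1 / p * x - b * (1 / p) * (1 / q) * y) * (p * (1 / q) * y) =
      2 * b * (x - b * (1 / q) * y) * ((1 / q) * y) := by
    field_simp
  have e6 : c * (p * (1 / q) * y) ^ 2 = (p ^ 2 * c) * ((1 / q) * y) ^ 2 := by ring
  rw [e4, e5, e6, e3]
  field_simp
  ring

theorem qf_si {M : ℝ} (hM : 1 ≤ M) {A : ℝ × ℝ × ℝ} (hA : A ∈ KM M) (w : ℝ × ℝ) :
    qf A (si A w) = nr w := by
  have he := ent_of hM hA
  rw [si_eq hM hA]
  exact qf_si_aux he.p0 he.q0 he.ha he.hD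

/-- `si A` as a linear map -/
noncomputable def sil (A : ℝ × ℝ × ℝ) : ℝ × ℝ →ₗ[ℝ] ℝ × ℝ :=
  Matrix.toLin (Module.Basis.finTwoProd ℝ) (Module.Basis.finTwoProd ℝ)
    !![1 / Real.sqrt A.1, -(A.2.1 * (1 / Real.sqrt A.1) * (1 / Real.sqrt (disc A)));
       0, Real.sqrt A.1 * (1 / Real.sqrt (disc A))]

theorem sil_apply {M : ℝ} (hM : 1 ≤ M) {A : ℝ × ℝ × ℝ} (hA : A ∈ KM M) (w : ℝ × ℝ) :
    sil A w = si A w := by
  unfold sil
  rw [Matrix.toLin_finTwoProd_apply, si_eq hM hA]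
  ext <;> simp only <;> ring

theorem sil_det {M : ℝ} (hM : 1 ≤ M) {A : ℝ × ℝ × ℝ} (hA : A ∈ KM M) :
    LinearMap.det (sil A) = 1 / Real.sqrt (disc A) := by
  have he := ent_of hM hA
  have hp := he.p0
  have hq := he.q0
  unfold sil
  rw [LinearMap.det_toLin, Matrix.det_fin_two_of]
  field_simp
  ring

theorem map_sil {M : ℝ} (hM : 1 ≤ M) {A : ℝ × ℝ × ℝ} (hA : A ∈ KM M) :
    Measure.map (sil A) (volume : Measure (ℝ × ℝ)) = ENNReal.ofReal (Real.sqrt (disc A)) • volume := by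
  have hq := (ent_of hM hA).q0
  have hdet : LinearMap.det (sil A) ≠ 0 := by
    rw [sil_det hM hA]
    positivity
  have hm := Measure.map_linearMap_addHaar_eq_smul_addHaar (volume : Measure (ℝ × ℝ)) hdet
  rw [hm, sil_det hM hA, one_div, inv_inv, abs_of_pos hq]

theorem map_sil3 {M : ℝ} (hM : 1 ≤ M) {A : ℝ × ℝ × ℝ} (hA : A ∈ KM M) :
    Measure.map (si3 A) (volume : Measure R6) =
      ENNReal.ofReal (Real.sqrt (disc A) ^ 3) • volume := by
  have hq := (ent_of hM hA).q0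
  have hmeas : Measurable (sil A) := (sil A).continuous_of_finiteDimensional.measurable
  have e : si3 A = Prod.map (sil A) (Prod.map (sil A) (sil A)) := by
    funext w
    simp only [si3, Prod.map, sil_apply hM hA]
  have h1 := map_sil hM hA
  rw [e, Measure.volume_eq_prod, ← Measure.map_prod_map _ _ hmeas (hmeas.prodMap hmeas),
    Measure.volume_eq_prod (ℝ × ℝ) (ℝ × ℝ), ← Measure.map_prod_map _ _ hmeas hmeas, h1,
    Measure.prod_smul_left, Measure.prod_smul_left, Measure.prod_smul_right,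
    Measure.prod_smul_right, Measure.prod_smul_right, smul_smul, smul_smul,
    ← ENNReal.ofReal_mul hq.le, ← ENNReal.ofReal_mul (by positivity)]
  congr 2
  ring

theorem lint_si3 {M : ℝ} (hM : 1 ≤ M) {A : ℝ × ℝ × ℝ} (hA : A ∈ KM M) (hmeas : Measurable (si3 A))
    (f : R6 → ENNReal) (hf : Measurable f) :
    ∫⁻ y, f y = ENNReal.ofReal (1 / Real.sqrt (disc A) ^ 3) * ∫⁻ w, f (si3 A w) := by
  have hq := (ent_of hM hA).q0
  rw [← lintegral_map hf hmeas, map_sil3 hM hA, lintegral_smul_measure, smul_eq_mul, ← mul_assoc,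
    ← ENNReal.ofReal_mul (by positivity), one_div, inv_mul_cancel₀ (by positivity),
    ENNReal.ofReal_one, one_mul]

theorem si3_meas : Measurable (fun z : (ℝ × ℝ × ℝ) × R6 => si3 z.1 z.2) := by
  have h1 : Measurable (fun z : (ℝ × ℝ × ℝ) × (ℝ × ℝ) => si z.1 z.2) := by
    unfold si disc
    fun_prop
  unfold si3
  have a1 : Measurable (fun z : (ℝ × ℝ × ℝ) × R6 => si z.1 z.2.1) :=
    h1.comp (measurable_fst.prodMk (measurable_fst.comp measurable_snd))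
  have a2 : Measurable (fun z : (ℝ × ℝ × ℝ) × R6 => si z.1 z.2.2.1) :=
    h1.comp (measurable_fst.prodMk (measurable_fst.comp (measurable_snd.comp measurable_snd)))
  have a3 : Measurable (fun z : (ℝ × ℝ × ℝ) × R6 => si z.1 z.2.2.2) :=
    h1.comp (measurable_fst.prodMk (measurable_snd.comp (measurable_snd.comp measurable_snd)))
  exact a1.prodMk (a2.prodMk a3)

/-- one component -/
theorem si_norm {M : ℝ} (hM : 1 ≤ M) {A : ℝ × ℝ × ℝ} (hA : A ∈ KM M) (w : ℝ × ℝ) :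
    ‖si A w‖ ≤ 2 * M * ‖w‖ ∧ ‖w‖ ≤ 2 * M * ‖si A w‖ := by
  have hM0 : 0 < M := by linarith
  have h1 := hA (si A w)
  rw [qf_si hM hA] at h1
  have k1 : ∀ z : ℝ × ℝ, ‖z‖ ^ 2 ≤ nr z := by
    intro z
    have : |z.1| ≤ Real.sqrt (nr z) ∧ |z.2| ≤ Real.sqrt (nr z) := by
      constructor
      · apply Real.le_sqrt_of_sq_le
        rw [sq_abs]
        unfold nr
        nlinarith [sq_nonneg z.2]
      · apply Real.le_sqrt_of_sq_le
        rw [sq_abs]
        unfold nr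
        nlinarith [sq_nonneg z.1]
    have h2 : ‖z‖ ≤ Real.sqrt (nr z) := max_le this.1 this.2
    have h3 := pow_le_pow_left₀ (norm_nonneg z) h2 2
    rwa [Real.sq_sqrt (by unfold nr; positivity)] at h3
  have k2 : ∀ z : ℝ × ℝ, nr z ≤ 2 * ‖z‖ ^ 2 := fun z => nr_le_of_norm le_rfl
  have a1 := k1 w
  have a2 := k2 w
  have b1 := k1 (si A w)
  have b2 := k2 (si A w)
  have n1 := norm_nonneg w
  have n2 := norm_nonneg (si A w)
  constructor
  · have h2 : nr (si A w) ≤ M * nr w := by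
      have := h1.1
      rw [div_le_iff₀ hM0] at this
      linarith
    have h3 : ‖si A w‖ ^ 2 ≤ (2 * M * ‖w‖) ^ 2 := by
      calc ‖si A w‖ ^ 2 ≤ M * (2 * ‖w‖ ^ 2) := b1.trans (h2.trans (mul_le_mul_of_nonneg_left a2 hM0.le))
        _ = 2 * M * ‖w‖ ^ 2 := by ring
        _ ≤ (2 * M) * (2 * M) * ‖w‖ ^ 2 := by
          refine mul_le_mul_of_nonneg_right ?_ (by positivity)
          nlinarith
        _ = _ := by ring
    exact le_of_sq_le_sq h3 (by positivity)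
  · have h2 := h1.2
    have h3 : ‖w‖ ^ 2 ≤ (2 * M * ‖si A w‖) ^ 2 := by
      calc ‖w‖ ^ 2 ≤ M * (2 * ‖si A w‖ ^ 2) := a1.trans (h2.trans (mul_le_mul_of_nonneg_left b2 hM0.le))
        _ = 2 * M * ‖si A w‖ ^ 2 := by ring
        _ ≤ (2 * M) * (2 * M) * ‖si A w‖ ^ 2 := by
          refine mul_le_mul_of_nonneg_right ?_ (by positivity)
          nlinarith
        _ = _ := by ring
    exact le_of_sq_le_sq h3 (by positivity)

theorem dp_aux {M x y d : ℝ} (hM : 1 ≤ M) (hx : 1 / M ≤ x) (hy : 1 / M ≤ y)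
    (h : |x ^ 2 - y ^ 2| ≤ d) : |x - y| ≤ M / 2 * d := by
  have hM0 : 0 < M := by linarith
  have h0 : 0 < 1 / M := by positivity
  have h1 : |x - y| * (x + y) ≤ d := by
    rw [← abs_of_nonneg (show 0 ≤ x + y by linarith), ← abs_mul]
    have e : (x - y) * (x + y) = x ^ 2 - y ^ 2 := by ring
    rw [e]
    exact h
  have h2 : |x - y| * (2 / M) ≤ d := by
    refine le_trans (mul_le_mul_of_nonneg_left ?_ (abs_nonneg _)) h1
    have : 2 / M = 1 / M + 1 / M := by ring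
    linarith
  have h3 := mul_le_mul_of_nonneg_left h2 (show 0 ≤ M / 2 by positivity)
  have e : M / 2 * (|x - y| * (2 / M)) = |x - y| := by field_simp
  rwa [e] at h3

theorem di_aux {M x y : ℝ} (hM : 1 ≤ M) (hx : 0 < x) (hy : 0 < y) (hx' : 1 / x ≤ M)
    (hy' : 1 / y ≤ M) : |1 / x - 1 / y| ≤ M ^ 2 * |x - y| := by
  have hM0 : 0 < M := by linarith
  have e : 1 / x - 1 / y = (1 / x) * (1 / y) * (y - x) := by
    field_simp
  have i1 : 0 < 1 / x := by positivity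
  have i2 : 0 < 1 / y := by positivity
  rw [e, abs_mul, abs_of_pos (mul_pos i1 i2), abs_sub_comm y x]
  refine mul_le_mul_of_nonneg_right ?_ (abs_nonneg _)
  rw [pow_two]
  exact mul_le_mul hx' hy' i2.le hM0.le

/-- differences of the entries -/
structure Dif (M d P Q P' Q' p q p' q' b b' : ℝ) : Prop where
  h1 : |p - p'| ≤ M * d
  h2 : |q - q'| ≤ 2 * M ^ 2 * d
  h3 : |P - P'| ≤ M ^ 3 * d
  h4 : |Q - Q'| ≤ 2 * M ^ 4 * d
  h5 : |b * P * Q - b' * P' * Q'| ≤ 4 * M ^ 6 * d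
  h6 : |p * Q - p' * Q'| ≤ 3 * M ^ 5 * d

theorem dif_of {M a b c p q a' b' c' p' q' d : ℝ} (h : Ent M a b c p q) (h' : Ent M a' b' c' p' q')
    (d1 : |a - a'| ≤ d) (d2 : |b - b'| ≤ d) (d3 : |c - c'| ≤ d) :
    Dif M d (1 / p) (1 / q) (1 / p') (1 / q') p q p' q' b b' := by
  have hM := h.hM
  have hM0 : 0 < M := by linarith
  have hd : 0 ≤ d := (abs_nonneg _).trans d1
  have hp := h.p0
  have hq := h.q0
  have hp' := h'.p0
  have hq' := h'.q0
  have e1 : |p - p'| ≤ M * d := by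
    have := dp_aux hM h.hp h'.hp (d := d) (by rw [h.ha, h'.ha]; exact d1)
    nlinarith [mul_nonneg hM0.le hd]
  have e2 : |q - q'| ≤ 2 * M ^ 2 * d := by
    have h1 : |q ^ 2 - q' ^ 2| ≤ 4 * M * d := by
      rw [h.hD, h'.hD]
      have e : a * c - b ^ 2 - (a' * c' - b' ^ 2) = a * (c - c') + (a - a') * c' -
          (b - b') * (b + b') := by ring
      rw [e]
      have k1 : |a * (c - c')| ≤ M * d := by
        rw [abs_mul]
        exact mul_le_mul h.ha' d3 (abs_nonneg _) hM0.le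
      have k2 : |(a - a') * c'| ≤ d * M := by
        rw [abs_mul]
        exact mul_le_mul d1 h'.hc (abs_nonneg _) hd
      have k3 : |(b - b') * (b + b')| ≤ d * (M + M) := by
        rw [abs_mul]
        exact mul_le_mul d2 ((abs_add_le _ _).trans (add_le_add h.hb h'.hb)) (abs_nonneg _) hd
      calc |a * (c - c') + (a - a') * c' - (b - b') * (b + b')| ≤
          |a * (c - c') + (a - a') * c'| + |(b - b') * (b + b')| := abs_sub _ _
        _ ≤ |a * (c - c')| + |(a - a') * c'| + |(b - b') * (b + b')| :=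
          add_le_add (abs_add_le _ _) le_rfl
        _ ≤ 4 * M * d := by linarith
    have := dp_aux hM h.hq h'.hq h1
    refine this.trans (le_of_eq ?_)
    ring
  have e3 : |1 / p - 1 / p'| ≤ M ^ 3 * d := by
    refine (di_aux hM hp hp' h.ip h'.ip).trans ?_
    calc M ^ 2 * |p - p'| ≤ M ^ 2 * (M * d) := mul_le_mul_of_nonneg_left e1 (by positivity)
      _ = _ := by ring
  have e4 : |1 / q - 1 / q'| ≤ 2 * M ^ 4 * d := by
    refine (di_aux hM hq hq' h.iq h'.iq).trans ?_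
    calc M ^ 2 * |q - q'| ≤ M ^ 2 * (2 * M ^ 2 * d) := mul_le_mul_of_nonneg_left e2 (by positivity)
      _ = _ := by ring
  have iP : 0 ≤ 1 / p := by positivity
  have iQ : 0 ≤ 1 / q := by positivity
  have iP' : 0 ≤ 1 / p' := by positivity
  have iQ' : 0 ≤ 1 / q' := by positivity
  have kk : ∀ k, k ≤ 6 → M ^ k * d ≤ M ^ 6 * d := fun k hk =>
    mul_le_mul_of_nonneg_right (pow_le_pow_right₀ hM hk) hd
  have kk5 : M ^ 2 * d ≤ M ^ 5 * d :=
    mul_le_mul_of_nonneg_right (pow_le_pow_right₀ hM (by norm_num)) hd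
  refine ⟨e1, e2, e3, e4, ?_, ?_⟩
  · have e : b * (1 / p) * (1 / q) - b' * (1 / p') * (1 / q') =
        (b - b') * ((1 / p) * (1 / q)) + b' * (1 / q) * (1 / p - 1 / p') +
          b' * (1 / p') * (1 / q - 1 / q') := by ring
    rw [e]
    have k1 : |(b - b') * ((1 / p) * (1 / q))| ≤ d * (M * M) := by
      rw [abs_mul, abs_of_nonneg (mul_nonneg iP iQ)]
      exact mul_le_mul d2 (mul_le_mul h.ip h.iq iQ hM0.le) (mul_nonneg iP iQ) hd
    have k2 : |b' * (1 / q) * (1 / p - 1 / p')| ≤ M * M * (M ^ 3 * d) := by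
      rw [abs_mul, abs_mul, abs_of_nonneg iQ]
      exact mul_le_mul (mul_le_mul h'.hb h.iq iQ hM0.le) e3 (abs_nonneg _) (by positivity)
    have k3 : |b' * (1 / p') * (1 / q - 1 / q')| ≤ M * M * (2 * M ^ 4 * d) := by
      rw [abs_mul, abs_mul, abs_of_nonneg iP']
      exact mul_le_mul (mul_le_mul h'.hb h'.ip iP' hM0.le) e4 (abs_nonneg _) (by positivity)
    have j1 := kk 2 (by norm_num)
    have j2 := kk 5 (by norm_num)
    calc _ ≤ |(b - b') * ((1 / p) * (1 / q)) + b' * (1 / q) * (1 / p - 1 / p')| +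
          |b' * (1 / p') * (1 / q - 1 / q')| := abs_add_le _ _
      _ ≤ |(b - b') * ((1 / p) * (1 / q))| + |b' * (1 / q) * (1 / p - 1 / p')| +
          |b' * (1 / p') * (1 / q - 1 / q')| := add_le_add (abs_add_le _ _) le_rfl
      _ ≤ d * (M * M) + M * M * (M ^ 3 * d) + M * M * (2 * M ^ 4 * d) :=
          add_le_add (add_le_add k1 k2) k3
      _ = M ^ 2 * d + M ^ 5 * d + 2 * (M ^ 6 * d) := by ring
      _ ≤ 4 * M ^ 6 * d := by linarith
  · have e : p * (1 / q) - p' * (1 / q') = (p - p') * (1 / q) + p' * (1 / q - 1 / q') := by ring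
    rw [e]
    have k1 : |(p - p') * (1 / q)| ≤ M * d * M := by
      rw [abs_mul, abs_of_nonneg iQ]
      exact mul_le_mul e1 h.iq iQ (by positivity)
    have k2 : |p' * (1 / q - 1 / q')| ≤ M * (2 * M ^ 4 * d) := by
      rw [abs_mul, abs_of_pos hp']
      exact mul_le_mul h'.hp' e4 (abs_nonneg _) hM0.le
    calc _ ≤ |(p - p') * (1 / q)| + |p' * (1 / q - 1 / q')| := abs_add_le _ _
      _ ≤ M * d * M + M * (2 * M ^ 4 * d) := add_le_add k1 k2
      _ = M ^ 2 * d + 2 * (M ^ 5 * d) := by ring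
      _ ≤ 3 * M ^ 5 * d := by linarith

theorem si_lip {M : ℝ} (hM : 1 ≤ M) {A A' : ℝ × ℝ × ℝ} (hA : A ∈ KM M) (hA' : A' ∈ KM M)
    (w : ℝ × ℝ) : ‖si A w - si A' w‖ ≤ 5 * M ^ 6 * (‖A - A'‖ * ‖w‖) := by
  have hM0 : 0 < M := by linarith
  have he := ent_of hM hA
  have he' := ent_of hM hA'
  have n1 : |A.1 - A'.1| ≤ ‖A - A'‖ := norm_fst_le (A - A')
  have n2 : |A.2.1 - A'.2.1| ≤ ‖A - A'‖ := (norm_fst_le (A - A').2).trans (norm_snd_le (A - A'))
  have n3 : |A.2.2 - A'.2.2| ≤ ‖A - A'‖ := (norm_snd_le (A - A').2).trans (norm_snd_le (A - A'))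
  have hd := dif_of he he' n1 n2 n3
  have w1 : |w.1| ≤ ‖w‖ := norm_fst_le w
  have w2 : |w.2| ≤ ‖w‖ := norm_snd_le w
  have d0 := norm_nonneg (A - A')
  have w0 := norm_nonneg w
  have t0 : 0 ≤ ‖A - A'‖ * ‖w‖ := mul_nonneg d0 w0
  have j1 : M ^ 3 * (‖A - A'‖ * ‖w‖) ≤ M ^ 6 * (‖A - A'‖ * ‖w‖) :=
    mul_le_mul_of_nonneg_right (pow_le_pow_right₀ hM (by norm_num)) t0
  have j2 : M ^ 5 * (‖A - A'‖ * ‖w‖) ≤ M ^ 6 * (‖A - A'‖ * ‖w‖) :=
    mul_le_mul_of_nonneg_right (pow_le_pow_right₀ hM (by norm_num)) t0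
  rw [si_eq hM hA, si_eq hM hA', Prod.norm_def]
  refine max_le ?_ ?_
  · rw [Real.norm_eq_abs]
    have e : (1 / Real.sqrt A.1 * w.1 - A.2.1 * (1 / Real.sqrt A.1) * (1 / Real.sqrt (disc A)) * w.2) -
        (1 / Real.sqrt A'.1 * w.1 - A'.2.1 * (1 / Real.sqrt A'.1) * (1 / Real.sqrt (disc A')) * w.2) =
        (1 / Real.sqrt A.1 - 1 / Real.sqrt A'.1) * w.1 -
        (A.2.1 * (1 / Real.sqrt A.1) * (1 / Real.sqrt (disc A)) -
          A'.2.1 * (1 / Real.sqrt A'.1) * (1 / Real.sqrt (disc A'))) * w.2 := by ring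
    have k1 : |(1 / Real.sqrt A.1 - 1 / Real.sqrt A'.1) * w.1| ≤ M ^ 3 * ‖A - A'‖ * ‖w‖ := by
      rw [abs_mul]
      exact mul_le_mul hd.h3 w1 (abs_nonneg _) (by positivity)
    have k2 : |(A.2.1 * (1 / Real.sqrt A.1) * (1 / Real.sqrt (disc A)) -
          A'.2.1 * (1 / Real.sqrt A'.1) * (1 / Real.sqrt (disc A'))) * w.2| ≤
        4 * M ^ 6 * ‖A - A'‖ * ‖w‖ := by
      rw [abs_mul]
      exact mul_le_mul hd.h5 w2 (abs_nonneg _) (by positivity)
    calc |(1 / Real.sqrt A.1 * w.1 - A.2.1 * (1 / Real.sqrt A.1) * (1 / Real.sqrt (disc A)) * w.2) -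
        (1 / Real.sqrt A'.1 * w.1 - A'.2.1 * (1 / Real.sqrt A'.1) * (1 / Real.sqrt (disc A')) * w.2)|
        = |(1 / Real.sqrt A.1 - 1 / Real.sqrt A'.1) * w.1 -
        (A.2.1 * (1 / Real.sqrt A.1) * (1 / Real.sqrt (disc A)) -
          A'.2.1 * (1 / Real.sqrt A'.1) * (1 / Real.sqrt (disc A'))) * w.2| := by rw [e]
      _ ≤ _ := abs_sub _ _
      _ ≤ M ^ 3 * ‖A - A'‖ * ‖w‖ + 4 * M ^ 6 * ‖A - A'‖ * ‖w‖ := add_le_add k1 k2
      _ = M ^ 3 * (‖A - A'‖ * ‖w‖) + 4 * (M ^ 6 * (‖A - A'‖ * ‖w‖)) := by ring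
      _ ≤ 5 * M ^ 6 * (‖A - A'‖ * ‖w‖) := by linarith
  · rw [Real.norm_eq_abs]
    have e : Real.sqrt A.1 * (1 / Real.sqrt (disc A)) * w.2 -
        Real.sqrt A'.1 * (1 / Real.sqrt (disc A')) * w.2 =
        (Real.sqrt A.1 * (1 / Real.sqrt (disc A)) - Real.sqrt A'.1 * (1 / Real.sqrt (disc A'))) *
          w.2 := by ring
    have k2 : |(Real.sqrt A.1 * (1 / Real.sqrt (disc A)) -
        Real.sqrt A'.1 * (1 / Real.sqrt (disc A'))) * w.2| ≤ 3 * M ^ 5 * ‖A - A'‖ * ‖w‖ := by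
      rw [abs_mul]
      exact mul_le_mul hd.h6 w2 (abs_nonneg _) (by positivity)
    have t6 : 0 ≤ M ^ 6 * (‖A - A'‖ * ‖w‖) := by positivity
    calc |Real.sqrt A.1 * (1 / Real.sqrt (disc A)) * w.2 -
        Real.sqrt A'.1 * (1 / Real.sqrt (disc A')) * w.2| = |(Real.sqrt A.1 *
        (1 / Real.sqrt (disc A)) - Real.sqrt A'.1 * (1 / Real.sqrt (disc A'))) * w.2| := by rw [e]
      _ ≤ 3 * M ^ 5 * ‖A - A'‖ * ‖w‖ := k2
      _ = 3 * (M ^ 5 * (‖A - A'‖ * ‖w‖)) := by ring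
      _ ≤ 5 * M ^ 6 * (‖A - A'‖ * ‖w‖) := by linarith

theorem xsi : XSIStmt := by
  intro M hM
  have hM0 : 0 < M := by linarith
  have hpw : ∀ k, k ≤ 7 → M ^ k ≤ M ^ 7 := fun k hk => pow_le_pow_right₀ hM hk
  have p1 : 1 ≤ M ^ 7 := one_le_pow₀ hM
  refine ⟨10 * M ^ 7, by linarith, si3_meas, fun A hA w => qf_si hM hA w, fun A hA f hf => ?_,
    fun A hA => ?_, fun A hA w => ?_, fun A hA A' hA' => ⟨fun w => ?_, ?_⟩⟩
  · exact lint_si3 hM hA (si3_meas.comp (measurable_const.prodMk measurable_id)) f hf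
  · have he := ent_of hM hA
    have hq := he.q0
    refine ⟨by positivity, ?_⟩
    have h1 : (1 / Real.sqrt (disc A)) ^ 3 ≤ M ^ 3 := pow_le_pow_left₀ (by positivity) he.iq 3
    have h2 := hpw 3 (by norm_num)
    rw [div_pow, one_pow] at h1
    linarith
  · have h1 := si_norm hM hA w.1
    have h2 := si_norm hM hA w.2.1
    have h3 := si_norm hM hA w.2.2
    have n1 : ‖w.1‖ ≤ ‖w‖ := norm_fst_le w
    have n2 : ‖w.2.1‖ ≤ ‖w‖ := (norm_fst_le w.2).trans (norm_snd_le w)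
    have n3 : ‖w.2.2‖ ≤ ‖w‖ := (norm_snd_le w.2).trans (norm_snd_le w)
    have m1 : ‖(si3 A w).1‖ ≤ ‖si3 A w‖ := norm_fst_le _
    have m2 : ‖(si3 A w).2.1‖ ≤ ‖si3 A w‖ := (norm_fst_le _).trans (norm_snd_le _)
    have m3 : ‖(si3 A w).2.2‖ ≤ ‖si3 A w‖ := (norm_snd_le _).trans (norm_snd_le _)
    have h0 := hpw 1 (by norm_num)
    rw [pow_one] at h0
    have hc : 2 * M ≤ 10 * M ^ 7 := by linarith
    constructor
    · have g : ∀ z : ℝ × ℝ, ‖z‖ ≤ ‖w‖ → ‖si A z‖ ≤ 10 * M ^ 7 * ‖w‖ := fun z hz =>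
        (si_norm hM hA z).1.trans (mul_le_mul hc hz (norm_nonneg _) (by positivity))
      exact max_le (g _ n1) (max_le (g _ n2) (g _ n3))
    · have g : ∀ z : ℝ × ℝ, ‖si A z‖ ≤ ‖si3 A w‖ → ‖z‖ ≤ 10 * M ^ 7 * ‖si3 A w‖ := fun z hz =>
        (si_norm hM hA z).2.trans (mul_le_mul hc hz (norm_nonneg _) (by positivity))
      exact max_le (g _ m1) (max_le (g _ m2) (g _ m3))
  · have n1 : ‖w.1‖ ≤ ‖w‖ := norm_fst_le w
    have n2 : ‖w.2.1‖ ≤ ‖w‖ := (norm_fst_le w.2).trans (norm_snd_le w)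
    have n3 : ‖w.2.2‖ ≤ ‖w‖ := (norm_snd_le w.2).trans (norm_snd_le w)
    have h6 := hpw 6 (by norm_num)
    have g : ∀ z : ℝ × ℝ, ‖z‖ ≤ ‖w‖ → ‖si A z - si A' z‖ ≤ 10 * M ^ 7 * (‖A - A'‖ * ‖w‖) := by
      intro z hz
      refine (si_lip hM hA hA' z).trans ?_
      refine mul_le_mul (by linarith) (mul_le_mul_of_nonneg_left hz (norm_nonneg _))
        (by positivity) (by positivity)
    exact max_le (g _ n1) (max_le (g _ n2) (g _ n3))
  · have he := ent_of hM hA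
    have he' := ent_of hM hA'
    have hq := he.q0
    have hq' := he'.q0
    have n1 : |A.1 - A'.1| ≤ ‖A - A'‖ := norm_fst_le (A - A')
    have n2 : |A.2.1 - A'.2.1| ≤ ‖A - A'‖ := (norm_fst_le (A - A').2).trans (norm_snd_le (A - A'))
    have n3 : |A.2.2 - A'.2.2| ≤ ‖A - A'‖ := (norm_snd_le (A - A').2).trans (norm_snd_le (A - A'))
    have hd := dif_of he he' n1 n2 n3
    obtain ⟨q, hqq⟩ : ∃ q, q = Real.sqrt (disc A) := ⟨_, rfl⟩
    obtain ⟨q', hqq'⟩ : ∃ q', q' = Real.sqrt (disc A') := ⟨_, rfl⟩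
    have h2 := hd.h2
    have i1 := he'.iq
    have u1 := he.hq'
    have u2 := he'.hq'
    rw [← hqq] at hq h2 u1 ⊢
    rw [← hqq'] at hq' h2 i1 u2 ⊢
    have d0 := norm_nonneg (A - A')
    have e : 1 / q ^ 3 - 1 / q' ^ 3 = -((q - q') * (q ^ 2 + q * q' + q' ^ 2) * (1 / q') ^ 3 *
        (1 / q ^ 3)) := by
      field_simp
      ring
    rw [e, abs_neg, abs_mul, abs_of_pos (show 0 < 1 / q ^ 3 by positivity)]
    refine mul_le_mul_of_nonneg_right ?_ (by positivity)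
    have s0 : 0 < q ^ 2 + q * q' + q' ^ 2 := by positivity
    have s1 : q ^ 2 + q * q' + q' ^ 2 ≤ 3 * M ^ 2 := by nlinarith
    have s2 : (1 / q') ^ 3 ≤ M ^ 3 := pow_le_pow_left₀ (by positivity) i1 3
    rw [abs_mul, abs_mul, abs_of_pos s0, abs_of_pos (show 0 < (1 / q') ^ 3 by positivity)]
    calc |q - q'| * (q ^ 2 + q * q' + q' ^ 2) * (1 / q') ^ 3 ≤
          2 * M ^ 2 * ‖A - A'‖ * (3 * M ^ 2) * M ^ 3 := by gcongr
      _ = 6 * M ^ 7 * ‖A - A'‖ := by ring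
      _ ≤ 10 * M ^ 7 * ‖A - A'‖ := by
        refine mul_le_mul_of_nonneg_right (by linarith) d0

end Pool.Agent.Helper96_X
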