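import Pool.Agent.Helper30_FC.XDef
import Pool.Agent.Helper56_F5H.FAF
import Pool.Agent.Helper39_F5S.TNF
import Pool.Agent.Helper30_FC.Mass

/-!
MP_f5cbfa_nt (helper96), row XWC: the weight of a pair is Lipschitz.
-/

set_option autoImplicit false

open MeasureTheory Set Filter

namespace Pool.Agent.Helper96_X

open Pool.Agent.BTL Pool.Agent.F5S Pool.Agent.F5H
open Pool.Agent.Helper30_FC hiding ph
open Pool.Agent.F5S.H39 (tn_nonneg tn_le_one tn_lip)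

theorem mul_lip {a b a' b' : ℝ} (ha : 0 ≤ a') (ha1 : a' ≤ 1) (hb : 0 ≤ b) (hb1 : b ≤ 1) :
    |a * b - a' * b'| ≤ |a - a'| + |b - b'| := by
  have e : a * b - a' * b' = (a - a') * b + a' * (b - b') := by ring
  rw [e]
  calc |(a - a') * b + a' * (b - b')| ≤ |(a - a') * b| + |a' * (b - b')| := abs_add_le _ _
    _ = |a - a'| * b + a' * |b - b'| := by rw [abs_mul, abs_mul, abs_of_nonneg hb, abs_of_nonneg ha]
    _ ≤ |a - a'| * 1 + 1 * |b - b'| := by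
      refine add_le_add (mul_le_mul_of_nonneg_left hb1 (abs_nonneg _))
        (mul_le_mul_of_nonneg_right ha1 (abs_nonneg _))
    _ = _ := by ring

theorem ph01 (z : ℝ × ℝ) : 0 ≤ ph z ∧ ph z ≤ 1 := by
  unfold ph
  exact ⟨mul_nonneg (tn_nonneg _) (tn_nonneg _),
    mul_le_one₀ (tn_le_one _) (tn_nonneg _) (tn_le_one _)⟩

theorem ph_lip {L : ℝ} (hL : 0 < L) (x x' c : ℝ × ℝ) :
    |ph (L⁻¹ • (x - c)) - ph (L⁻¹ • (x' - c))| ≤ 2 / L * ‖x - x'‖ := by
  unfold ph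
  refine (mul_lip (tn_nonneg _) (tn_le_one _) (tn_nonneg _) (tn_le_one _)).trans ?_
  have k : ∀ a b c : ℝ, |tn (L⁻¹ * (a - c)) - tn (L⁻¹ * (b - c))| ≤ L⁻¹ * |a - b| := by
    intro a b c
    refine (tn_lip _ _).trans (le_of_eq ?_)
    rw [← mul_sub, abs_mul, abs_of_pos (inv_pos.2 hL)]
    congr 2
    ring
  have k1 := k x.1 x'.1 c.1
  have k2 := k x.2 x'.2 c.2
  have n1 : |x.1 - x'.1| ≤ ‖x - x'‖ := norm_fst_le (x - x')
  have n2 : |x.2 - x'.2| ≤ ‖x - x'‖ := norm_snd_le (x - x')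
  have i0 : 0 < L⁻¹ := inv_pos.2 hL
  calc |tn (L⁻¹ * (x.1 - c.1)) - tn (L⁻¹ * (x'.1 - c.1))| +
        |tn (L⁻¹ * (x.2 - c.2)) - tn (L⁻¹ * (x'.2 - c.2))|
      ≤ L⁻¹ * |x.1 - x'.1| + L⁻¹ * |x.2 - x'.2| := add_le_add k1 k2
    _ ≤ L⁻¹ * ‖x - x'‖ + L⁻¹ * ‖x - x'‖ := add_le_add (mul_le_mul_of_nonneg_left n1 i0.le)
        (mul_le_mul_of_nonneg_left n2 i0.le)
    _ = 2 / L * ‖x - x'‖ := by ring

theorem cl6_lip {L : ℝ} (hL : 0 < L) (c x x' : R6) :
    |cl6 L c x - cl6 L c x'| ≤ 6 / L * ‖x - x'‖ := by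
  unfold cl6
  have p := fun z : ℝ × ℝ => ph01 z
  have q : ∀ z w : ℝ × ℝ, 0 ≤ ph z * ph w ∧ ph z * ph w ≤ 1 := fun z w =>
    ⟨mul_nonneg (p z).1 (p w).1, mul_le_one₀ (p z).2 (p w).1 (p w).2⟩
  have n1 : ‖x.1 - x'.1‖ ≤ ‖x - x'‖ := norm_fst_le (x - x')
  have n2 : ‖x.2.1 - x'.2.1‖ ≤ ‖x - x'‖ := (norm_fst_le (x - x').2).trans (norm_snd_le (x - x'))
  have n3 : ‖x.2.2 - x'.2.2‖ ≤ ‖x - x'‖ := (norm_snd_le (x - x').2).trans (norm_snd_le (x - x'))
  have i0 : 0 ≤ 2 / L := by positivity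
  have h1 := (ph_lip hL x.1 x'.1 c.1).trans (mul_le_mul_of_nonneg_left n1 i0)
  have h2 := (ph_lip hL x.2.1 x'.2.1 c.2.1).trans (mul_le_mul_of_nonneg_left n2 i0)
  have h3 := (ph_lip hL x.2.2 x'.2.2 c.2.2).trans (mul_le_mul_of_nonneg_left n3 i0)
  refine (mul_lip (p _).1 (p _).2 (q _ _).1 (q _ _).2).trans ?_
  have h4 := mul_lip (a := ph (L⁻¹ • (x.2.1 - c.2.1))) (b := ph (L⁻¹ • (x.2.2 - c.2.2)))
    (a' := ph (L⁻¹ • (x'.2.1 - c.2.1))) (b' := ph (L⁻¹ • (x'.2.2 - c.2.2))) (p _).1 (p _).2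
    (p _).1 (p _).2
  have e : 6 / L * ‖x - x'‖ = 2 / L * ‖x - x'‖ + (2 / L * ‖x - x'‖ + 2 / L * ‖x - x'‖) := by ring
  rw [e]
  exact add_le_add h1 (h4.trans (add_le_add h2 h3))

theorem wc_int (hC : CLFStmt) {L : ℝ} (hL : 0 < L) {W : R6 → ℝ} (hW : Measurable W)
    (h01 : ∀ c, 0 ≤ W c ∧ W c ≤ 1) (x y : R6) :
    Integrable (fun c => W c * ((L ^ 6)⁻¹ * (cl6 L c x * cl6 L c y))) := by
  obtain ⟨c01, cc, csup, -⟩ := hC L hL
  have hm : Measurable (fun c => W c * ((L ^ 6)⁻¹ * (cl6 L c x * cl6 L c y))) := by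
    have h1 : ∀ z : R6, Measurable (fun c : R6 => cl6 L c z) := fun z =>
      cc.measurable.comp (measurable_id.prodMk measurable_const)
    exact hW.mul (((h1 x).mul (h1 y)).const_mul _)
  have hL6 : 0 < L ^ 6 := by positivity
  refine integ_bdd hm (S := Metric.closedBall x L) (C := (L ^ 6)⁻¹) ?_ ?_ ?_
  · intro c
    have a1 := (h01 c)
    have a2 := (c01 c x)
    have a3 := (c01 c y)
    have b1 : cl6 L c x * cl6 L c y ≤ 1 := mul_le_one₀ a2.2 a3.1 a3.2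
    have b0 : 0 ≤ cl6 L c x * cl6 L c y := mul_nonneg a2.1 a3.1
    have b2 : (L ^ 6)⁻¹ * (cl6 L c x * cl6 L c y) ≤ (L ^ 6)⁻¹ :=
      mul_le_of_le_one_right (by positivity) b1
    rw [abs_of_nonneg (mul_nonneg a1.1 (mul_nonneg (by positivity) b0))]
    exact (mul_le_of_le_one_left (by positivity) a1.2).trans b2
  · rw [H56.vol6 x L hL.le]
    exact ENNReal.ofReal_lt_top
  · intro c hc
    have h1 : cl6 L c x ≠ 0 := by
      intro h
      apply hc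
      rw [h, zero_mul, mul_zero, mul_zero]
    rw [Metric.mem_closedBall, dist_eq_norm, norm_sub_rev]
    exact csup c x h1

theorem wc_lip1 (hC : CLFStmt) {L : ℝ} (hL : 0 < L) {W : R6 → ℝ} (hW : Measurable W)
    (h01 : ∀ c, 0 ≤ W c ∧ W c ≤ 1) (x x' y : R6) :
    |WC L W x y - WC L W x' y| ≤ 384 / L * ‖x - x'‖ := by
  obtain ⟨c01, cc, csup, -⟩ := hC L hL
  have hL6 : 0 < L ^ 6 := by positivity
  unfold WC
  rw [← integral_sub (wc_int hC hL hW h01 x y) (wc_int hC hL hW h01 x' y)]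
  obtain ⟨f, hf⟩ : ∃ f : R6 → ℝ, f = fun c => W c * ((L ^ 6)⁻¹ * (cl6 L c x * cl6 L c y)) -
    W c * ((L ^ 6)⁻¹ * (cl6 L c x' * cl6 L c y)) := ⟨_, rfl⟩
  rw [← hf]
  have h1 : ∫ c, f c = ∫ c in Metric.closedBall y L, f c := by
    refine (setIntegral_eq_integral_of_forall_compl_eq_zero ?_).symm
    intro c hc
    by_contra hne
    apply hc
    have h2 : cl6 L c y ≠ 0 := by
      intro h
      apply hne
      rw [hf]
      simp only [h, mul_zero, sub_zero]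
    rw [Metric.mem_closedBall, dist_eq_norm, norm_sub_rev]
    exact csup c y h2
  have hv := H56.vol6 y L hL.le
  have hfin : volume (Metric.closedBall y L) < ⊤ := by
    rw [hv]
    exact ENNReal.ofReal_lt_top
  have hb : ∀ c, ‖f c‖ ≤ (L ^ 6)⁻¹ * (6 / L * ‖x - x'‖) := by
    intro c
    have e : f c = W c * ((L ^ 6)⁻¹ * ((cl6 L c x - cl6 L c x') * cl6 L c y)) := by
      rw [hf]
      ring
    have a1 := h01 c
    have a3 := c01 c y
    have a4 := cl6_lip hL c x x'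
    have i0 : 0 < (L ^ 6)⁻¹ := inv_pos.2 hL6
    rw [e, Real.norm_eq_abs, abs_mul, abs_mul, abs_mul, abs_of_nonneg a1.1, abs_of_pos i0,
      abs_of_nonneg a3.1]
    have b1 : |cl6 L c x - cl6 L c x'| * cl6 L c y ≤ 6 / L * ‖x - x'‖ :=
      (mul_le_of_le_one_right (abs_nonneg _) a3.2).trans a4
    have b0 : 0 ≤ |cl6 L c x - cl6 L c x'| * cl6 L c y := mul_nonneg (abs_nonneg _) a3.1
    exact (mul_le_of_le_one_left (mul_nonneg i0.le b0) a1.2).trans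
      (mul_le_mul_of_nonneg_left b1 i0.le)
  have h2 : ‖∫ c in Metric.closedBall y L, f c‖ ≤
      (L ^ 6)⁻¹ * (6 / L * ‖x - x'‖) * volume.real (Metric.closedBall y L) :=
    norm_setIntegral_le_of_norm_le_const hfin (fun c _ => hb c)
  have h3 : volume.real (Metric.closedBall y L) = (2 * L) ^ 6 := by
    unfold Measure.real
    rw [hv, ENNReal.toReal_ofReal (by positivity)]
  rw [h1, ← Real.norm_eq_abs]
  refine h2.trans (le_of_eq ?_)
  rw [h3]
  field_simp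
  ring

theorem wc_symm (L : ℝ) (W : R6 → ℝ) (x y : R6) : WC L W x y = WC L W y x := by
  unfold WC
  congr 1
  funext c
  rw [mul_comm (cl6 L c x)]

theorem xwc (hC : CLFStmt) : XWCStmt := by
  intro L W hL1 hW h01
  have hL : 0 < L := by linarith
  obtain ⟨h1, h2, h3⟩ := H56.wc hC hL hW h01
  refine ⟨h1, h2, h3, ?_⟩
  intro x y x' y'
  have a := wc_lip1 hC hL hW h01 x x' y
  have b := wc_lip1 hC hL hW h01 y y' x'
  rw [wc_symm L W y x', wc_symm L W y' x'] at b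
  have e : WC L W x y - WC L W x' y' =
      (WC L W x y - WC L W x' y) + (WC L W x' y - WC L W x' y') := by ring
  rw [e]
  have n1 := norm_nonneg (x - x')
  have n2 := norm_nonneg (y - y')
  calc |(WC L W x y - WC L W x' y) + (WC L W x' y - WC L W x' y')| ≤
        |WC L W x y - WC L W x' y| + |WC L W x' y - WC L W x' y'| := abs_add_le _ _
    _ ≤ 384 / L * ‖x - x'‖ + 384 / L * ‖y - y'‖ := add_le_add a b
    _ = 384 / L * (‖x - x'‖ + ‖y - y'‖) := by ring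
    _ ≤ 1000 / L * (‖x - x'‖ + ‖y - y'‖) := by
      refine mul_le_mul_of_nonneg_right ?_ (by positivity)
      exact div_le_div_of_nonneg_right (by norm_num) hL.le

end Pool.Agent.Helper96_X
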